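import Pool.Agent.Y638.RF.NetZT
import Pool.Agent.Y649.DG.Main
import Pool.Agent.Y649.DG.Gen

/-!
# Exact triangle: formulas with determinant gates

The input consists of the `3 n ^ 2` weights of a complete tripartite graph with three parts of `n`
vertices; the weights are integers between `- (n + 1)` and `n + 1`. The question is whether there is a
triangle of weight zero.

A formula (`Fml`) is built from real constants, arbitrary real functions of one weight, and arbitrary
real functions of `w` words, where each word is a function of one weight with `q = n ^ c` values (for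
`c ≥ 2` a leaf may be an arbitrary real function of `w` weights), by the gates

* `pos`: is the value positive? (`1` or `0`),
* `sym`: any fan-in, any real function of the number of positive inputs,
* `det`: the determinant of a real matrix of any order whose entries are formulas (sums and products
  are determinants of order two),
* `reg`: is the matrix over an arbitrary field `K`, of any order, whose entry `(a, b)` is `c' a b` or
  `c a b`, according to whether the formula `(a, b)` is positive or not, regular? (`1` or `0`).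

The size is the number of the leaves which are not constants, plus the number of wires which lead to
gates `sym`. So constants and the orders of the matrices are free. The formula accepts if its value is
positive. Such formulas contain (without increase in size, `Pool.Agent.Y649.DG.exists_of_net`) the
nondeterministic networks whose edges are guarded by real formulas of the starting result
`RealNetworks`, and these may be nested: the guards of a network, or the entries of a span program,
may be the results of other networks.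

We show that random formulas of size at most `s` with error probability at most `1 / 3` need
`n ^ 5 ≤ 10 ^ 7 * c w ^ 3 log₂ n s ^ 2`, that is, size of order `n ^ (5 / 2)` up to a logarithm, for an
input of `3 n ^ 2` numbers.

Proof. Every weight between the first two parts can ask for `n` bits which are stored in the other
weights (`Pool.Agent.Y638.RF.ZT.asks`, starting files), and a formula in which `r` leaves see the
weight has at most `2 ^ O (r ^ 2 log n)` subfunctions of it (`Pool.Agent.Y649.DG`, starting files).
-/

set_option autoImplicit false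

namespace Pool.Agent.Results.MP_62fbe0_lc.DeterminantGates

open Pool.Agent.TH697.Form (IsProb)
open Pool.Agent.TH697.Row (ApproximatesOn)
open Pool.Agent.Y638.RF.ZT (InRange zeroTri first card_first asks_first)
open Pool.Agent.Y649.DG (Fml)

theorem result : ∀ n c w : ℕ, 100 ≤ n → 1 ≤ c → 1 ≤ w →
    ∀ (Ω : Type) [Fintype Ω] (μ : Ω → ℝ), IsProb μ →
      ∀ (s : ℕ) (F : Ω → Fml (Fin 3 × Fin n × Fin n) (fun _ => ℤ) w (n ^ c)),
        (∀ ω, (F ω).size ≤ s) →
        ApproximatesOn μ (fun ω => (F ω).accepts) InRange zeroTri →
        (n : ℝ) ^ 5 ≤ 10000000 * c * w ^ 3 * Real.logb 2 n * s ^ 2 := by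
  intro n c w hn hc hw Ω _ μ hμ s F hs hF
  have hn' : (100 : ℝ) ≤ n := by exact_mod_cast hn
  have hw' : (1 : ℝ) ≤ w := by exact_mod_cast hw
  have hc' : (1 : ℝ) ≤ c := by exact_mod_cast hc
  obtain ⟨l, hl⟩ : ∃ l : ℝ, l = Real.logb 2 n := ⟨_, rfl⟩
  have hl1 : 1 ≤ l := by
    rw [hl, Real.le_logb_iff_rpow_le (by norm_num) (by positivity), Real.rpow_one]
    linarith
  by_cases hsm : n ^ 3 ≤ s
  · have h1 : (n : ℝ) ^ 3 ≤ s := by exact_mod_cast hsm
    have h2 : (n : ℝ) ^ 5 ≤ (s : ℝ) ^ 2 := by
      calc (n : ℝ) ^ 5 ≤ ((n : ℝ) ^ 3) ^ 2 := by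
            rw [← pow_mul]
            exact pow_le_pow_right₀ (by linarith) (by norm_num)
        _ ≤ (s : ℝ) ^ 2 := pow_le_pow_left₀ (by positivity) h1 2
    have h3 : (1 : ℝ) ≤ w ^ 3 := one_le_pow₀ hw'
    have h4 : (1 : ℝ) ≤ 10000000 * c * w ^ 3 := by nlinarith
    have h4' : (1 : ℝ) ≤ 10000000 * c * w ^ 3 * l := by nlinarith
    have h5 : 0 ≤ (s : ℝ) ^ 2 := by positivity
    rw [← hl]
    nlinarith
  have hM : 4 * n * (5 * s + 1) + 2 + s ≤ n ^ 5 := by
    have h1 : s < n ^ 3 := by omega
    have h2 : 4 * n * (5 * s + 1) ≤ 4 * n * (5 * n ^ 3) := Nat.mul_le_mul_left _ (by omega)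
    have h3 : 4 * n * (5 * n ^ 3) = 20 * n ^ 4 := by ring
    have h4 : n ^ 3 ≤ n ^ 4 := Nat.pow_le_pow_right (by omega) (by norm_num)
    have h5 : 100 * n ^ 4 ≤ n ^ 5 := by
      calc 100 * n ^ 4 ≤ n * n ^ 4 := Nat.mul_le_mul_right _ hn
        _ = n ^ 5 := by ring
    have h6 : 1 ≤ n ^ 4 := Nat.one_le_pow _ _ (by omega)
    omega
  have hLL : 1 + 5 * Real.logb 2 ((n ^ 5 : ℕ) : ℝ) +
      ((w : ℝ) - 1) * Real.logb 2 ((n ^ c : ℕ) : ℝ) ≤ 26 * c * w * l := by
    rw [Nat.cast_pow n 5, Nat.cast_pow n c, Real.logb_pow, Real.logb_pow, ← hl]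
    push_cast
    have h4 : 1 + 5 * (5 * l) ≤ 26 * l := by linarith
    have h5 : 0 ≤ ((w : ℝ) - 1) * (c * l) := by
      apply mul_nonneg (by linarith)
      positivity
    have h6 : l ≤ c * l := by nlinarith
    nlinarith
  have h7 := Pool.Agent.Y649.DG.bound_sq Pool.Agent.Y649.DG.bound
    (D := fun _ : Fin 3 × Fin n × Fin n => ℤ) μ hμ F InRange zeroTri hF s hs
    (Nat.one_le_pow _ _ (by omega)) hw n (n ^ 5) hM 0 (by norm_num)
    (first n) (T := Fin n) asks_first (n : ℝ) hn' (by rw [Fintype.card_fin]) (26 * c * w * l) hLL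
  rw [card_first, Nat.cast_pow n 2] at h7
  rw [← hl]
  have e1 : ((n : ℝ) ^ 2) ^ 2 * n = (n : ℝ) ^ 5 := by ring
  have e2 : 360000 * (w : ℝ) ^ 2 * (26 * c * w * l) * s ^ 2 = 9360000 * c * w ^ 3 * l * s ^ 2 := by
    ring
  rw [e1, e2] at h7
  have h8 : 0 ≤ (c : ℝ) * w ^ 3 * l * s ^ 2 := by positivity
  linarith

end Pool.Agent.Results.MP_62fbe0_lc.DeterminantGates
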