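import Pool.Agent.X240.SH.Et

/-!
# Exact Triangle: nondeterministic machines with slow heads which verify negative answers

A graph with `n` vertices and integral weights of absolute value at most `n ^ 4` is given by the
cells `(i, j)` with `i < j`, row by row (`etword`): each cell contains the edge flag, the sign of the
weight and `w` binary digits, so the input is a word of `N = n ^ 2 (w + 2)` bits (the cells `(i, j)`
with `j ≤ i` are blank).  Nonuniform nondeterministic programs with `k` two-way heads, which move by at
most one position in a step, with at most `2 ^ S` configurations, which accept the graphs without a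
triangle of weight zero within `T` steps and never accept another graph, satisfy
`k (S + 1) (k T + N) ^ 2 ≥ n ^ 2 N ^ 2 / (6.3 * 10 ^ 7)`.  So if `k` is bounded then
`T ≥ c n ^ 3 (w + 2) / sqrt (S + 1)` for large `n` and `S = o(n ^ 2)`: with space `n ^ o(1)` they
need time `n ^ (3 - o(1))`, and with space `n ^ (2 - c)` more than quadratic time.

Proof. The `n / 3` last vertices form the set `B`, the rows of the others form zones of `r` rows, and the
class of a vertex `i` outside `B` is the parity of its zone.  The weight of the edge from `i` to the
vertex `c` of `B` is `v i c` or `- v i c`, depending on the class, the edges between vertices of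
different classes have weight zero, and there are no other edges.  So there is a triangle of weight
zero iff `v i c = v j c` for some `c` and some `i`, `j` of different classes.  In each zone all
`c` occur, so the zones of each pair of zones of different classes must be compared; transcripts and
a count of rectangles, as in the theorem on blocks of the library (`Pool.Agent.TH457.HT`), give the
bound (`Pool.Agent.X240.SH.Diag`, `Pool.Agent.X240.SH.Arr`).
-/

set_option autoImplicit false

namespace Pool.Agent.Results.MP_62fbe0_lc.NondeterministicSlowHeads

open Pool.Agent.TH457.HT Pool.Agent.X240.SH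

/-- Let `P` be a nondeterministic program with `k ≥ 1` two-way heads for words of
`N = n * (n * (w + 2))` bits and with at most `2 ^ S` configurations.  If for all edge flags `e` and
weights `x` of absolute value at most `n ^ 4` without a triangle of weight zero the word is accepted
by some computation of at most `T` steps, and if for those with a triangle of weight zero the word is
accepted by no computation, then `n ^ 2 * N ^ 2 ≤ 62240000 * k * (S + 1) * (k * T + N) ^ 2`. -/
theorem result (n w k T S : ℕ) (P : HeadProg Bool (n * (n * (w + 2))) k) (hk : 1 ≤ k)
    (hS : Fintype.card P.Q * (n * (n * (w + 2))) ^ k ≤ 2 ^ S)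
    (hacc : ∀ (e : Fin n → Fin n → Bool) (x : Fin n → Fin n → ℤ), (∀ i j, |x i j| ≤ (n : ℤ) ^ 4) →
      ¬ ZeroTriangle e x → P.AcceptsIn T (etword n w e x))
    (hsound : ∀ (e : Fin n → Fin n → Bool) (x : Fin n → Fin n → ℤ),
      (∀ i j, |x i j| ≤ (n : ℤ) ^ 4) → ZeroTriangle e x → ¬ P.Accepts (etword n w e x)) :
    n ^ 2 * (n * (n * (w + 2))) ^ 2
      ≤ 62240000 * (k * (S + 1) * (k * T + n * (n * (w + 2))) ^ 2) :=
  et_nondet n w P T S hk hS hacc hsound

end Pool.Agent.Results.MP_62fbe0_lc.NondeterministicSlowHeads
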