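import Mathlib
import Pool.Agent.X240.ZT.Real

/-!
# Exact triangle: branching programs which test real formulas

The input consists of the `3 n ^ 2` weights of a complete tripartite graph with three parts of `n`
vertices; the weights are integers between `- (n + 1)` and `n + 1`. The question is whether there is a
triangle of weight zero. The items of the input are the weights.

A real formula (`Fml`) computes with exact real numbers: it is built from real constants, arbitrary
real functions of one weight, and arbitrary real functions of `w` words of `c` bits, where each word is
an arbitrary function of one weight, by sums, products, sign tests `pos` (with the values `0`, `1`),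
and gates `sym` of any fan-in whose value is an arbitrary real function of the number of positive
inputs; these gates can be nested in any way. It accepts if its value is positive. Its size is the
number of leaves (constants are free) plus the number of wires which lead to gates `sym`. In a
branching program (`Program`) every inner node tests whether a real formula accepts; its size is the
number of inner nodes plus the sizes of all these formulas.

We show

* for `n ≥ 2048`: random branching programs of size at most `s` with error probability at most `1 / 3`
  need `n ^ 3 ≤ 1900 w (c w + log₂ n) s`;
* exhaustive search is a branching program of this kind with one inner node and of size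
  `6 n ^ 3 + 1`, for any `w` and `c`. So exhaustive search is optimal up to a factor of the order
  `log n` if `w` is bounded and the words have `O (log n)` bits. (The input has `3 n ^ 2` numbers.)

Proof. The weight of an edge `i j` between the first two parts takes one of the values `1, …, n`, and
it asks with the value `k + 1` for the bit `z k` which is stored in the weight of the edge `j k`
(`Pool.Agent.Y638.RF.ZT.asks`). So each of `n ^ 2` items can ask for `n` bits, and we count the
functions of one weight which arise when the others are fixed (Nechiporuk's method,
`Pool.Agent.Y638.RF`).
-/

set_option autoImplicit false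

namespace Pool.Agent.Results.MP_62fbe0_lc.RealPrograms

open Pool.Agent.TH697.Form (IsProb)
open Pool.Agent.TH697.Row (ApproximatesOn)
open Pool.Agent.Y638.RF (Program)
open Pool.Agent.Y638.RF.ZT (InRange zeroTri)

theorem result :
    (∀ n c w : ℕ, 2048 ≤ n → 1 ≤ w →
      ∀ (Ω : Type) [Fintype Ω] (μ : Ω → ℝ), IsProb μ →
        ∀ (s : ℕ) (B : Ω → Program (Fin 3 × Fin n × Fin n) (fun _ => ℤ) w (2 ^ c) s),
          ApproximatesOn μ (fun ω => (B ω).eval) InRange zeroTri →
          (n : ℝ) ^ 3 ≤ 1900 * w * (c * w + Real.logb 2 n) * s) ∧
    (∀ n c w : ℕ, ∃ B : Program (Fin 3 × Fin n × Fin n) (fun _ => ℤ) w (2 ^ c) (6 * n ^ 3 + 1),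
      B.nodes = 1 ∧ ∀ x, B.eval x = zeroTri x) := by
  refine ⟨fun _ _ _ hn hw _ _ μ hμ s B hB =>
    Pool.Agent.X240.ZT.program_bound hn hw μ hμ s B hB, fun n c w => ?_⟩
  obtain ⟨F, h1, h2⟩ := Pool.Agent.X240.ZT.upper n w (2 ^ c)
  obtain ⟨B, h3, h4⟩ := Pool.Agent.Y638.RF.exists_program F (6 * n ^ 3 + 1) (by omega)
  exact ⟨B, h3, fun x => (h4 x).trans (h2 x)⟩

end Pool.Agent.Results.MP_62fbe0_lc.RealPrograms
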