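import Pool.Agent.X240.SH.Et

/-!
# Exact Triangle: randomized machines with slow heads need cubic time

A graph with `n` vertices and integral weights of absolute value at most `2500 n ^ 4` is given by the
cells `(i, j)` with `i < j`, row by row (`etword`): each cell contains the edge flag, the sign of the
weight and `w` binary digits, so the input is a word of `N = n ^ 2 (w + 2)` bits (the cells `(i, j)`
with `j ≤ i` are blank).  Randomized nonuniform programs with `k` two-way heads, which move by at most
one position in a step, with at most `2 ^ S` configurations, which find out within `T` steps, with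
error probability at most `1 / 10000`, whether there is a triangle of weight zero, satisfy
`k (S + 1) (k T + N) ^ 2 ≥ n ^ 2 N ^ 2 / (2.08 * 10 ^ 8)`.  So if `k` is bounded then
`T ≥ c n ^ 3 (w + 2) / sqrt (S + 1)` for large `n` and `S = o(n ^ 2)`: randomized Turing machines with
several heads on the input tape need time `n ^ (3 - o(1))` if they use space `n ^ o(1)`, and more than
quadratic time if they use space `n ^ (2 - c)`.  (An algorithm which is always correct, with expected
time `t`, gives such a program with `T = 10000 t`.)

Proof. The `n / 3` last vertices form the set `B`, the rows of the others form zones of `r` rows, and the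
class of a vertex `i` outside `B` is the parity of its zone.  The weight of the edge from `i` to the
vertex `c` of `B` is `v i c` or `- v i c`, depending on the class, the edges between vertices of
different classes have weight zero, and there are no other edges.  So there is a triangle of weight
zero iff `v i c = v j c` for some `c` and some `i`, `j` of different classes.  In each zone all
`c` occur, so the zones of each pair of zones of different classes must be compared; transcripts and
planted collisions, as in the theorem on blocks of the library (`Pool.Agent.TH457.HT`), give the bound
(`Pool.Agent.X240.SH.Diag`, `Pool.Agent.X240.SH.Arr`).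
-/

set_option autoImplicit false

namespace Pool.Agent.Results.MP_62fbe0_lc.SlowHeads

open Pool.Agent.TH457.HT Pool.Agent.X240.SH

open Classical in
/-- Let `p`, `P` be a random program with `k ≥ 1` two-way heads for words of `N = n * (n * (w + 2))`
bits and with at most `2 ^ S` configurations.  If for all edge flags `e` and weights `x` of
absolute value at most `2500 n ^ 4` the right answer to the question whether there is a triangle of
weight zero is given within `T` steps with probability at least `1 - 1 / 10000`, then
`n ^ 2 * N ^ 2 ≤ 208000000 * k * (S + 1) * (k * T + N) ^ 2`. -/
theorem result (n w k T S : ℕ) (Ω : Type) [Fintype Ω] (p : Ω → ℝ)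
    (P : Ω → DetProg Bool (n * (n * (w + 2))) k)
    (hp : ∀ ω, 0 ≤ p ω) (hp1 : ∑ ω, p ω = 1) (hk : 1 ≤ k)
    (hS : ∀ ω, Fintype.card (P ω).Q * (n * (n * (w + 2))) ^ k ≤ 2 ^ S)
    (h : ∀ (e : Fin n → Fin n → Bool) (x : Fin n → Fin n → ℤ),
      (∀ i j, |x i j| ≤ 2500 * (n : ℤ) ^ 4) →
      1 - 1 / 10000 ≤ prob p P T (etword n w e x) (decide (ZeroTriangle e x))) :
    n ^ 2 * (n * (n * (w + 2))) ^ 2
      ≤ 208000000 * (k * (S + 1) * (k * T + n * (n * (w + 2))) ^ 2) :=
  et_rand n w p hp hp1 P T S hk hS h

end Pool.Agent.Results.MP_62fbe0_lc.SlowHeads
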